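import Pool.Agent.helper62.RP.Spec

set_option autoImplicit false

/-!
# Row FPD: the first passage decomposition
-/

open Polynomial Filter
open Pool.Agent.QU

namespace Pool.Agent.RP

theorem FPD_near (a : MonoidAlgebra ℂ F2) (q p : ℕ) (x y : F2) (h1 : BAL_stmt) (hx : x.norm ≤ q) :
    (a ^ p).coeff (x⁻¹ * y) =
    ∑ i ∈ Finset.range (p + 1), ∑ s ∈ ball q, kil a q s i x * (a ^ (p - i)).coeff (s⁻¹ * y) := by
  have hxb : x ∈ ball q := (h1 q x).2 hx
  rw [Finset.sum_range_succ']
  have h0 : ∑ i ∈ Finset.range p, ∑ s ∈ ball q,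
      kil a q s (i + 1) x * (a ^ (p - (i + 1))).coeff (s⁻¹ * y) = 0 := by
    apply Finset.sum_eq_zero
    intro i _
    apply Finset.sum_eq_zero
    intro s _
    rw [kil, if_pos hx, zero_mul]
  rw [h0, zero_add, Finset.sum_eq_single x]
  · rw [kil, if_pos rfl, one_mul, Nat.sub_zero]
  · intro s _ hs
    rw [kil, if_neg (fun h => hs h.symm), zero_mul]
  · intro h
    exact absurd hxb h

theorem FPD_zero (a : MonoidAlgebra ℂ F2) (q m : ℕ) (x y : F2) (h1 : BAL_stmt) (hx : ¬ x.norm ≤ q) :
    ∑ s ∈ ball q, kil a q s 0 x * (a ^ m).coeff (s⁻¹ * y) = 0 := by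
  apply Finset.sum_eq_zero
  intro s hs
  have : x ≠ s := by
    rintro rfl
    exact hx ((h1 q x).1 hs)
  rw [kil, if_neg this, zero_mul]

theorem FPD (h1 : BAL_stmt) (h2 : TRE_stmt) : FPD_stmt := by
  intro a q ha p
  induction p with
  | zero =>
    intro x y hxy
    by_cases hx : x.norm ≤ q
    · exact FPD_near a q 0 x y h1 hx
    · have hs : Sep x y := by
        rcases hxy with h | h
        · exact absurd h hx
        · exact h
      have hn := h2.1 x y hs
      rw [zero_add, Finset.sum_range_one, FPD_zero a q _ x y h1 hx, pow_zero]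
      have hne : x⁻¹ * y ≠ 1 := by
        intro h
        rw [h, FreeGroup.norm_one] at hn
        omega
      rw [MonoidAlgebra.one_def, MonoidAlgebra.coeff_single, Finsupp.single_apply,
        if_neg (fun h => hne h.symm)]
  | succ p ih =>
    intro x y hxy
    by_cases hx : x.norm ≤ q
    · exact FPD_near a q (p + 1) x y h1 hx
    · have hs : Sep x y := by
        rcases hxy with h | h
        · exact absurd h hx
        · exact h
      rw [Finset.sum_range_succ', FPD_zero a q _ x y h1 hx, add_zero, pow_succ',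
        MonoidAlgebra.coeff_mul_apply_left, Finsupp.sum]
      have h3 : ∀ t ∈ a.coeff.support, a.coeff t * (a ^ p).coeff (t⁻¹ * (x⁻¹ * y)) =
          ∑ i ∈ Finset.range (p + 1), ∑ s ∈ ball q,
            a.coeff t * kil a q s i (x * t) * (a ^ (p - i)).coeff (s⁻¹ * y) := by
        intro t ht
        have h4 : (x * t).norm ≤ q ∨ Sep (x * t) y := by
          apply h2.2.2 x y (x * t) q hs
          rw [inv_mul_cancel_left]
          exact ha t ht
        have h5 := ih (x * t) y h4
        have h6 : t⁻¹ * (x⁻¹ * y) = (x * t)⁻¹ * y := by group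
        rw [h6, h5, Finset.mul_sum]
        apply Finset.sum_congr rfl
        intro i _
        rw [Finset.mul_sum]
        apply Finset.sum_congr rfl
        intro s _
        ring
      rw [Finset.sum_congr rfl h3, Finset.sum_comm]
      apply Finset.sum_congr rfl
      intro i hi
      rw [Finset.sum_comm]
      apply Finset.sum_congr rfl
      intro s _
      rw [kil, if_neg hx, Finset.sum_mul, Nat.add_sub_add_right]

end Pool.Agent.RP
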